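import Mathlib
import Pool.Agent.H317.GI.Stm

/-! # Project GI: solvable subgroups (assembly) -/

set_option autoImplicit false

namespace Pool.Agent.H718.GI

open Matrix Module Pool.Agent.H317.GR Pool.Agent.H317.GH Pool.Agent.H317.GI

theorem toQ_inj (n p : ℕ) [Fact p.Prime] : Function.Injective (toQ n p) := by
  intro A B h
  have h1 : (toQ n p A).val = (toQ n p B).val := by rw [h]
  apply Subtype.ext
  ext i j
  have h2 := congrFun (congrFun h1 i) j
  change algebraMap ℤ_[p] ℚ_[p] (A.val i j) = algebraMap ℤ_[p] ℚ_[p] (B.val i j) at h2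
  exact (FaithfulSMul.algebraMap_injective ℤ_[p] ℚ_[p]) h2

theorem glmap_inj (n : ℕ) (K L : Type) [Field K] [Field L] (j : K →+* L) :
    Function.Injective (GeneralLinearGroup.map (n := Fin n) j) := by
  intro A B h
  have h1 : (GeneralLinearGroup.map j A).val = (GeneralLinearGroup.map j B).val := by rw [h]
  apply Units.ext
  ext a b
  have h2 := congrFun (congrFun h1 a) b
  change j (A.val a b) = j (B.val a b) at h2
  exact j.injective h2

/-- unipotent over a larger ring -/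
theorem unip_of_map {R L : Type} [CommRing R] [CommRing L] (φ : R →+* L)
    (hφ : Function.Injective φ) (A : Matrix (Fin 3) (Fin 3) R)
    (h : (φ.mapMatrix A - 1) ^ 3 = 0) : (A - 1) ^ 3 = 0 := by
  have h1 : φ.mapMatrix ((A - 1) ^ 3) = 0 := by
    rw [map_pow, map_sub, map_one, h]
  ext i j
  have h2 := congrFun (congrFun h1 i) j
  change φ ((((A - 1) ^ 3 : Matrix (Fin 3) (Fin 3) R)) i j) = 0 at h2
  exact hφ (h2.trans (map_zero φ).symm)

theorem sol : S_EMU → S_MAL → S_TRC → S_EXC → S_UR2 → S_SOL := by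
  intro hEMU hMAL hTRC hEXC hUR2 Λ _ hΛ S hS hA
  have : Fact (Nat.Prime 2) := ⟨Nat.prime_two⟩
  obtain ⟨ρ, ψ, hρ, hψ, hU⟩ := hEMU Λ hΛ
  obtain ⟨ρK, hρKdef⟩ : ∃ ρK : Λ →* GL (Fin 3) (AlgebraicClosure ℚ_[2]), ∀ g, ρK g =
      GeneralLinearGroup.map (algebraMap ℚ_[2] (AlgebraicClosure ℚ_[2])) (toQ 3 2 (ρ g)) :=
    ⟨((GeneralLinearGroup.map (algebraMap ℚ_[2] (AlgebraicClosure ℚ_[2]))).comp (toQ 3 2)).comp ρ,
      fun g => rfl⟩
  obtain ⟨G', hG', P, hP⟩ := hMAL (AlgebraicClosure ℚ_[2]) S hS (ρK.comp S.subtype)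
  obtain ⟨A0, hA0⟩ : ∃ A0 : Subgroup Λ, A0 = G'.map S.subtype := ⟨_, rfl⟩
  have hA0S : A0 ≤ S := by
    rw [hA0]
    rintro x ⟨g, -, rfl⟩
    exact g.2
  have hA0i : A0.relIndex S ≠ 0 := by
    have h1 : A0.subgroupOf S = G' := by
      rw [hA0]
      exact Subgroup.comap_map_eq_self_of_injective S.subtype_injective G'
    rw [Subgroup.relIndex, h1]
    exact hG'
  have htri : ∀ g ∈ A0, ∀ i j : Fin 3, j < i → (P⁻¹ * ρK g * P).val i j = 0 := by
    intro g hg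
    rw [hA0] at hg
    obtain ⟨g', hg', rfl⟩ := hg
    exact hP g' hg'
  have hnc := hA A0 hA0S hA0i
  push Not at hnc
  obtain ⟨x, hx, y, hy, hxy⟩ := hnc
  have ht1 : x * y * x⁻¹ * y⁻¹ ≠ 1 := by
    intro h
    apply hxy
    have h1 : x * y * x⁻¹ * y⁻¹ * (y * x) = x * y := by group
    rw [h, one_mul] at h1
    exact h1.symm
  have ht2 : ((ρ (x * y * x⁻¹ * y⁻¹)).val - 1) ^ 3 = 0 := by
    have h1 := (hTRC (AlgebraicClosure ℚ_[2]) P).1 (ρK x) (ρK y) (htri x hx) (htri y hy)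
    rw [← map_inv, ← map_inv, ← map_mul, ← map_mul, ← map_mul, hρKdef] at h1
    refine unip_of_map ((algebraMap ℚ_[2] (AlgebraicClosure ℚ_[2])).comp (algebraMap ℤ_[2] ℚ_[2]))
      ?_ _ h1
    intro a b hab
    exact (FaithfulSMul.algebraMap_injective ℤ_[2] ℚ_[2])
      ((algebraMap ℚ_[2] (AlgebraicClosure ℚ_[2])).injective hab)
  obtain ⟨σ, P', hσ, hdense, hconj⟩ := hU _ ht1 ht2
  have hT : ∀ g ∈ A0.map σ, ∀ i j : Fin 3, j < i →
      ((P' * P)⁻¹ * std 3 (AlgebraicClosure ℚ_[2]) g * (P' * P)).val i j = 0 := by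
    rintro g ⟨a, ha, rfl⟩ i j hij
    have h1 := hconj a
    rw [← hρKdef] at h1
    have h2 : (P' * P)⁻¹ * std 3 (AlgebraicClosure ℚ_[2]) (σ a) * (P' * P) = P⁻¹ * ρK a * P := by
      calc (P' * P)⁻¹ * std 3 (AlgebraicClosure ℚ_[2]) (σ a) * (P' * P)
          = P⁻¹ * P'⁻¹ * (std 3 (AlgebraicClosure ℚ_[2]) (σ a) * P') * P := by
            rw [_root_.mul_inv_rev]
            group
        _ = P⁻¹ * ρK a * P := by
            rw [h1]
            group
    rw [h2]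
    exact htri a ha i j hij
  have hTna : ∀ A : Subgroup (SZ 3), A ≤ A0.map σ → A.relIndex (A0.map σ) ≠ 0 →
      ¬ ∀ x ∈ A, ∀ y ∈ A, x * y = y * x := by
    intro A _ hAi hc
    refine hA (A.comap σ ⊓ A0) (inf_le_right.trans hA0S) ?_ ?_
    · refine Subgroup.relIndex_ne_zero_trans ?_ hA0i
      rw [Subgroup.inf_relIndex_right, Subgroup.relIndex_comap]
      exact hAi
    · rintro x ⟨hx1, -⟩ y ⟨hy1, -⟩
      apply hσ
      rw [map_mul, map_mul]
      exact hc _ hx1 _ hy1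
  obtain ⟨x', hx', y', hy', h1, h2, h3, h4⟩ :=
    hEXC (AlgebraicClosure ℚ_[2]) (A0.map σ) (P' * P) hT hTna
  have hle : A0.map σ ≤ σ.range := by
    rintro g ⟨a, -, rfl⟩
    exact ⟨a, rfl⟩
  exact hUR2 Λ σ hσ hdense x' y' (hle hx') (hle hy') h1 h2 h3 h4

end Pool.Agent.H718.GI
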